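import Pool.Agent.W610.HY.Stm4

set_option autoImplicit false

namespace Pool.Agent.W215.HY.OUT2
open Pool.Agent.W610.HY
open MeasureTheory Set Metric Filter Topology

/-- the angle in `(0, 2π]` -/
noncomputable def ang (z : ℂ) : ℝ :=
  if 0 < Complex.arg z then Complex.arg z else Complex.arg z + 2 * Real.pi

lemma ang_meas : Measurable ang := by
  unfold ang
  exact Measurable.ite (measurableSet_lt measurable_const Complex.measurable_arg)
    Complex.measurable_arg (Complex.measurable_arg.add_const _)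

lemma ang_circle (θ : ℝ) (hθ : θ ∈ Ioc (0:ℝ) (2 * Real.pi)) : ang (circleMap 0 1 θ) = θ := by
  have hpi := Real.pi_pos
  have hc : circleMap 0 1 θ = Complex.exp (θ * Complex.I) := by simp [circleMap]
  rcases le_or_gt θ Real.pi with h | h
  · have ha : Complex.arg (circleMap 0 1 θ) = θ := by
      rw [hc, Complex.arg_exp_mul_I]
      exact (toIocMod_eq_self Real.two_pi_pos).2 ⟨by linarith [hθ.1], by linarith⟩
    unfold ang
    rw [ha, if_pos hθ.1]
  · have ha : Complex.arg (circleMap 0 1 θ) = θ - 2 * Real.pi := by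
      rw [hc]
      have h2 : Complex.exp (θ * Complex.I) = Complex.exp (((θ - 2 * Real.pi : ℝ) : ℂ) * Complex.I) := by
        rw [Complex.ofReal_sub, sub_mul, Complex.exp_sub]
        have : Complex.exp (((2 * Real.pi : ℝ) : ℂ) * Complex.I) = 1 := by
          push_cast
          exact Complex.exp_two_pi_mul_I
        rw [this, div_one]
      rw [h2, Complex.arg_exp_mul_I]
      exact (toIocMod_eq_self Real.two_pi_pos).2 ⟨by linarith, by linarith [hθ.2]⟩
    unfold ang
    rw [ha, if_neg (by linarith [hθ.2])]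
    ring

lemma norm_hh (p : ℕ → Polynomial ℂ) (n : ℕ) (z : ℂ) :
    ‖hh p n z‖ = Real.exp (-(∑ k ∈ Finset.range n, ((p k).eval z).re)) := by
  unfold hh
  rw [Complex.norm_exp]
  simp

/-- the increments -/
noncomputable def fk (g : ℕ → ℂ → ℝ) : ℕ → ℂ → ℝ
  | 0 => fun z => |g 0 z|
  | (k + 1) => fun z => |g (k + 1) z - g k z|

lemma sum_fk (g : ℕ → ℂ → ℝ) (n : ℕ) (z : ℂ) :
    g n z ≤ ∑ k ∈ Finset.range (n + 1), fk g k z := by
  induction n with
  | zero => simpa [fk] using le_abs_self (g 0 z)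
  | succ n ih =>
    rw [Finset.sum_range_succ]
    have : g (n + 1) z - g n z ≤ fk g (n + 1) z := by
      simp only [fk]
      exact le_abs_self _
    linarith

lemma fk_nonneg (g : ℕ → ℂ → ℝ) (k : ℕ) (z : ℂ) : 0 ≤ fk g k z := by
  cases k with
  | zero => exact abs_nonneg _
  | succ k => exact abs_nonneg _

lemma fk_cont (g : ℕ → ℂ → ℝ) (hg : ∀ n, Continuous (g n)) (k : ℕ) : Continuous (fk g k) := by
  cases k with
  | zero => exact (hg 0).abs
  | succ k => exact ((hg (k + 1)).sub (hg k)).abs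

theorem main (hPOLY : POLY) (hMEAN : MEAN) (hLIM2 : LIM2) : Pool.Agent.W610.HY.OUT2 := by
  intro m hm hmi
  have hpi := Real.pi_pos
  set μ : Measure ℝ := volume.restrict (Ioc (0:ℝ) (2 * Real.pi)) with hμ
  haveI hfin : IsFiniteMeasure μ := by
    rw [hμ]
    infer_instance
  have hcm : Measurable (circleMap 0 1) := (continuous_circleMap 0 1).measurable
  set ν : Measure ℂ := Measure.map (circleMap 0 1) μ with hν
  haveI : IsFiniteMeasure ν := by rw [hν]; infer_instance
  -- the function on the circle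
  have hMm : Measurable (fun z : ℂ => m (ang z)) := hm.comp ang_meas
  have hlint : ∫⁻ z, m (ang z) ∂ν = ∫⁻ θ, m θ ∂μ := by
    rw [hν, lintegral_map hMm hcm, hμ]
    refine setLIntegral_congr_fun measurableSet_Ioc ?_
    intro θ hθ
    simp only [ang_circle θ hθ]
  have hlint' : ∫⁻ z, m (ang z) ∂ν ≠ ⊤ := by rw [hlint]; exact hmi
  have hM : Integrable (fun z : ℂ => (m (ang z)).toReal) ν :=
    integrable_toReal_of_lintegral_ne_top hMm.aemeasurable hlint'
  -- approximation by continuous functions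
  have hex : ∀ k : ℕ, ∃ g : BoundedContinuousFunction ℂ ℝ,
      ∫ z, ‖(m (ang z)).toReal - g z‖ ∂ν ≤ (1/4 : ℝ)^k ∧ Integrable g ν := fun k =>
    hM.exists_boundedContinuous_integral_sub_le (by positivity)
  choose g hg hgi using hex
  set G : ℕ → ℂ → ℝ := fun n z => g n z with hG
  have hGc : ∀ n, Continuous (G n) := fun n => (g n).continuous
  -- polynomials
  have hpex : ∀ k : ℕ, ∃ p : Polynomial ℂ, (p.eval 0).im = 0 ∧
      ∀ z : ℂ, ‖z‖ = 1 → fk G k z ≤ (p.eval z).re ∧ (p.eval z).re ≤ fk G k z + (1/2 : ℝ)^k :=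
    fun k => hPOLY (fk G k) (fk_cont G hGc k).continuousOn _ (by positivity)
  choose p hp0 hp using hpex
  have hcirc : ∀ θ : ℝ, ‖circleMap 0 1 θ‖ = 1 := by
    intro θ; simp [circleMap]
  -- integrals of the increments
  have hfkint : ∀ k, Integrable (fk G k) ν := by
    intro k
    cases k with
    | zero => exact (hgi 0).abs
    | succ k => exact ((hgi (k+1)).sub (hgi k)).abs
  have hMG : ∀ k, Integrable (fun z => (m (ang z)).toReal - G k z) ν := fun k => hM.sub (hgi k)
  have hfkb : ∀ k, ∫ z, fk G (k+1) z ∂ν ≤ 2 * (1/4 : ℝ)^k := by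
    intro k
    have h1 : ∫ z, fk G (k+1) z ∂ν ≤
        ∫ z, (‖(m (ang z)).toReal - G (k+1) z‖ + ‖(m (ang z)).toReal - G k z‖) ∂ν := by
      apply integral_mono (hfkint (k+1)) ((hMG (k+1)).norm.add (hMG k).norm)
      intro z
      simp only [fk, Real.norm_eq_abs]
      have : G (k+1) z - G k z = ((m (ang z)).toReal - G k z) - ((m (ang z)).toReal - G (k+1) z) := by
        ring
      rw [this]
      have := abs_sub ((m (ang z)).toReal - G k z) ((m (ang z)).toReal - G (k+1) z)
      simp only [Pi.add_apply]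
      linarith
    rw [integral_add (hMG (k+1)).norm (hMG k).norm] at h1
    have h2 := hg (k+1)
    have h3 := hg k
    have h4 : (1/4 : ℝ)^(k+1) ≤ (1/4 : ℝ)^k := by
      apply pow_le_pow_of_le_one <;> norm_num
    have h2' : ∫ z, ‖(m (ang z)).toReal - G (k+1) z‖ ∂ν ≤ (1/4 : ℝ)^(k+1) := h2
    have h3' : ∫ z, ‖(m (ang z)).toReal - G k z‖ ∂ν ≤ (1/4 : ℝ)^k := h3
    linarith
  have hp_cont : ∀ k, Continuous (fun θ : ℝ => ((p k).eval (circleMap 0 1 θ))) := fun k =>
    (p k).continuous.comp (continuous_circleMap 0 1)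
  have hmean : ∀ k, ∫ θ, ((p k).eval (circleMap 0 1 θ)).re ∂μ = 2 * Real.pi * ((p k).eval 0).re := by
    intro k
    have h1 := (hMEAN (fun z => (p k).eval z) (p k).differentiable).1
    have h2 : (∫ θ in (0:ℝ)..(2 * Real.pi), (p k).eval (circleMap 0 1 θ)) =
        ∫ θ, (p k).eval (circleMap 0 1 θ) ∂μ := by
      rw [intervalIntegral.integral_of_le (by positivity)]
    have hint : Integrable (fun θ => (p k).eval (circleMap 0 1 θ)) μ := by
      have := (hp_cont k).intervalIntegrable 0 (2 * Real.pi) (μ := volume)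
      rw [intervalIntegrable_iff_integrableOn_Ioc_of_le (by positivity)] at this
      exact this
    have h3 : ∫ θ, ((p k).eval (circleMap 0 1 θ)).re ∂μ =
        (∫ θ, (p k).eval (circleMap 0 1 θ) ∂μ).re := by
      exact integral_re hint
    rw [h3, ← h2, h1]
    simp
  have hreint : ∀ k, Integrable (fun θ => ((p k).eval (circleMap 0 1 θ)).re) μ := by
    intro k
    have := (Complex.continuous_re.comp (hp_cont k)).intervalIntegrable 0 (2 * Real.pi) (μ := volume)
    rw [intervalIntegrable_iff_integrableOn_Ioc_of_le (by positivity)] at this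
    exact this
  have hfkmap : ∀ k, ∫ θ, fk G k (circleMap 0 1 θ) ∂μ = ∫ z, fk G k z ∂ν := by
    intro k
    rw [hν, integral_map hcm.aemeasurable (fk_cont G hGc k).aestronglyMeasurable]
  have hfkintθ : ∀ k, Integrable (fun θ => fk G k (circleMap 0 1 θ)) μ := by
    intro k
    have := ((fk_cont G hGc k).comp (continuous_circleMap 0 1)).intervalIntegrable 0
      (2 * Real.pi) (μ := volume)
    rw [intervalIntegrable_iff_integrableOn_Ioc_of_le (by positivity)] at this
    exact this
  have hμu : μ.real univ = 2 * Real.pi := by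
    rw [hμ, measureReal_restrict_apply_univ]
    simp [Real.volume_real_Ioc, hpi.le]
  have hub : ∀ k, 2 * Real.pi * ((p k).eval 0).re ≤ ∫ z, fk G k z ∂ν + 2 * Real.pi * (1/2:ℝ)^k := by
    intro k
    rw [← hmean k, ← hfkmap k]
    have h1 : ∫ θ, ((p k).eval (circleMap 0 1 θ)).re ∂μ ≤
        ∫ θ, (fk G k (circleMap 0 1 θ) + (1/2:ℝ)^k) ∂μ := by
      apply integral_mono (hreint k) ((hfkintθ k).add (integrable_const _))
      intro θ
      exact (hp k _ (hcirc θ)).2
    rw [integral_add (hfkintθ k) (integrable_const _), integral_const, hμu] at h1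
    simpa [smul_eq_mul] using h1
  have hlb : ∀ k, 0 ≤ ((p k).eval 0).re := by
    intro k
    have h1 : 0 ≤ ∫ θ, ((p k).eval (circleMap 0 1 θ)).re ∂μ := by
      apply integral_nonneg
      intro θ
      exact (fk_nonneg G k _).trans (hp k _ (hcirc θ)).1
    rw [hmean k] at h1
    have : 0 < 2 * Real.pi := by positivity
    exact nonneg_of_mul_nonneg_right h1 this
  have hsum : Summable (fun k => ((p k).eval 0).re) := by
    rw [← summable_nat_add_iff 1]
    refine Summable.of_nonneg_of_le (fun k => hlb (k+1)) (f := fun k : ℕ => (1/4:ℝ)^k + (1/2:ℝ)^(k+1)) ?_ ?_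
    · intro k
      have h1 := hub (k+1)
      have h2 := hfkb k
      have h3 : 2 * Real.pi * ((p (k+1)).eval 0).re ≤ 2 * (1/4 : ℝ)^k + 2 * Real.pi * (1/2:ℝ)^(k+1) := by
        linarith
      have h4 : (2:ℝ) * (1/4 : ℝ)^k ≤ 2 * Real.pi * (1/4 : ℝ)^k := by
        have : (1:ℝ) ≤ Real.pi := by linarith [Real.pi_gt_three]
        have h5 : (0:ℝ) ≤ (1/4 : ℝ)^k := by positivity
        nlinarith
      have h6 : 0 < 2 * Real.pi := by positivity
      have h7 : 2 * Real.pi * ((p (k+1)).eval 0).re ≤ 2 * Real.pi * ((1/4 : ℝ)^k + (1/2:ℝ)^(k+1)) := by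
        linarith
      exact le_of_mul_le_mul_left h7 h6
    · apply Summable.add
      · exact summable_geometric_of_lt_one (by norm_num) (by norm_num)
      · exact (summable_nat_add_iff 1).2 (summable_geometric_of_lt_one (by norm_num) (by norm_num))
  obtain ⟨h, hhm, hhb, hhn, hhv⟩ := hLIM2 p hp0 (fun k z hz => (fk_nonneg G k z).trans (hp k z hz).1) hsum
  refine ⟨h, hhm, ?_, hhn, hhv⟩
  -- almost everywhere convergence
  have hL : ∀ᵐ z ∂ν, Tendsto (fun n => G n z) atTop (𝓝 ((m (ang z)).toReal)) := by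
    have h1 : ∀ n, ∫⁻ z, ‖(m (ang z)).toReal - G n z‖ₑ ∂ν ≤ ENNReal.ofReal ((1/4:ℝ)^n) := by
      intro n
      rw [← ofReal_integral_norm_eq_lintegral_enorm (hMG n)]
      exact ENNReal.ofReal_le_ofReal (hg n)
    have h2 : ∑' n, ∫⁻ z, ‖(m (ang z)).toReal - G n z‖ₑ ∂ν ≠ ⊤ := by
      have h3 : Summable (fun n : ℕ => (1/4:ℝ)^n) :=
        summable_geometric_of_lt_one (by norm_num) (by norm_num)
      exact ne_top_of_le_ne_top h3.tsum_ofReal_ne_top (ENNReal.tsum_le_tsum h1)
    have hmeas : ∀ n, AEMeasurable (fun z => ‖(m (ang z)).toReal - G n z‖ₑ) ν := fun n =>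
      (hMG n).aestronglyMeasurable.enorm
    rw [← lintegral_tsum hmeas] at h2
    have h4 := ae_lt_top' (AEMeasurable.tsum hmeas) h2
    filter_upwards [h4] with z hz
    have h5 := ENNReal.tendsto_atTop_zero_of_tsum_ne_top hz.ne
    rw [tendsto_iff_dist_tendsto_zero]
    have h6 : Tendsto (fun n => (‖(m (ang z)).toReal - G n z‖ₑ).toReal) atTop (𝓝 0) := by
      have := (ENNReal.tendsto_toReal ENNReal.zero_ne_top).comp h5
      simpa only [Function.comp_def, ENNReal.toReal_zero] using this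
    refine h6.congr ?_
    intro n
    rw [dist_comm, Real.dist_eq, toReal_enorm, Real.norm_eq_abs]
  have hL' : ∀ᵐ θ ∂μ, Tendsto (fun n => G n (circleMap 0 1 θ)) atTop
      (𝓝 ((m (ang (circleMap 0 1 θ))).toReal)) := ae_of_ae_map hcm.aemeasurable hL
  have htop : ∀ᵐ θ ∂μ, m θ < ⊤ := ae_lt_top hm hmi
  have hmem : ∀ᵐ θ ∂μ, θ ∈ Ioc (0:ℝ) (2 * Real.pi) := ae_restrict_mem measurableSet_Ioc
  filter_upwards [hL', htop, hmem, hhb] with θ h1 h2 h3 h4
  refine ⟨h2.ne, ?_⟩
  rw [ang_circle θ h3] at h1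
  have h5 : ∀ n, ‖h θ‖ ≤ Real.exp (-(G n (circleMap 0 1 θ))) := by
    intro n
    refine (h4 (n+1)).trans ?_
    rw [norm_hh]
    apply Real.exp_le_exp.2
    have h6 := sum_fk G n (circleMap 0 1 θ)
    have h7 : ∑ k ∈ Finset.range (n+1), fk G k (circleMap 0 1 θ) ≤
        ∑ k ∈ Finset.range (n+1), ((p k).eval (circleMap 0 1 θ)).re :=
      Finset.sum_le_sum (fun k _ => (hp k _ (hcirc θ)).1)
    linarith
  have h8 : Tendsto (fun n => Real.exp (-(G n (circleMap 0 1 θ)))) atTop
      (𝓝 (Real.exp (-(m θ).toReal))) := (Real.continuous_exp.tendsto _).comp h1.neg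
  exact ge_of_tendsto' h8 h5

end Pool.Agent.W215.HY.OUT2
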